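import Pool.Agent.H174.GM.Stmts2

/-!
# Project GM (helper174), job MBD: the Magog residues with smallest exponent `0` vanish
-/

set_option autoImplicit false

namespace Pool.Agent.H549.GM174

open Finset Pool.Agent.H174.GM

variable {k : ℕ}

/-- the subring of the elements which do not involve `x_j` -/
def sub (h4 : S_XF) (j : Fin k) : Subring (E k) where
  carrier := {f | Free j f}
  mul_mem' := fun {a b} ha hb => ((h4 k j).2.2.2.2.2.2.1 a b ha hb).2
  one_mem' := by
    have h := (h4 k j).2.2.2.2.2.1 1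
    rwa [map_one] at h
  add_mem' := fun {a b} ha hb => ((h4 k j).2.2.2.2.2.2.1 a b ha hb).1
  zero_mem' := by
    have h := (h4 k j).2.2.2.2.2.1 0
    rwa [map_zero] at h
  neg_mem' := fun {a} ha => ((h4 k j).2.2.2.2.2.2.2 a ha).1

theorem mem_sub {h4 : S_XF} {j : Fin k} {f : E k} : f ∈ sub h4 j ↔ Free j f := Iff.rfl

theorem xx_mem (h4 : S_XF) {i j : Fin k} (hij : i ≠ j) : xx i ∈ sub h4 j :=
  (h4 k j).2.2.2.1 i hij

theorem uu_mem (h4 : S_XF) {i j : Fin k} (hij : i ≠ j) : uu (xx i) ∈ sub h4 j :=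
  (sub h4 j).mul_mem (xx_mem h4 hij) ((sub h4 j).sub_mem (sub h4 j).one_mem (xx_mem h4 hij))

theorem inv_mem (h4 : S_XF) {j : Fin k} {f : E k} (hf : f ∈ sub h4 j) : f⁻¹ ∈ sub h4 j :=
  ((h4 k j).2.2.2.2.2.2.2 f hf).2

/-- the number of pairs which contain `j` -/
theorem card_pairs (j : Fin k) : ∑ p ∈ pairs k, (if p.1 = j ∨ p.2 = j then 1 else 0) ≤ k - 1 := by
  rw [← Finset.card_filter]
  have h1 : (univ.erase j).card = k - 1 := by
    rw [Finset.card_erase_of_mem (mem_univ j), Finset.card_univ, Fintype.card_fin]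
  rw [← h1]
  apply Finset.card_le_card_of_injOn (fun p => if p.1 = j then p.2 else p.1)
  · intro p hp
    rw [Finset.mem_coe, mem_filter, pairs, mem_filter] at hp
    obtain ⟨⟨-, h2⟩, h3⟩ := hp
    rw [Finset.mem_coe, mem_erase]
    refine ⟨?_, mem_univ _⟩
    dsimp only
    split_ifs with h4
    · intro h5
      rw [h4, h5] at h2
      exact lt_irrefl _ h2
    · exact h4
  · intro p hp q hq hpq
    rw [Finset.mem_coe, mem_filter, pairs, mem_filter] at hp hq
    obtain ⟨⟨-, h2⟩, h3⟩ := hp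
    obtain ⟨⟨-, h5⟩, h6⟩ := hq
    dsimp only at hpq
    split_ifs at hpq with h7 h8 h8
    · exact Prod.ext (h7.trans h8.symm) hpq
    · exfalso
      have h9 : q.2 = j := h6.resolve_left h8
      rw [h7, hpq] at h2
      rw [h9] at h5
      exact lt_asymm h2 h5
    · exfalso
      have h9 : p.2 = j := h3.resolve_left h7
      rw [h8, ← hpq] at h5
      rw [h9] at h2
      exact lt_asymm h2 h5
    · exact Prod.ext hpq ((h3.resolve_left h7).trans (h6.resolve_left h8).symm)

/-- the Vandermonde product as a polynomial in `u_j` -/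
theorem pairs_poly (h4 : S_XF) (j : Fin k) : ∃ P : Polynomial (sub h4 j), P.natDegree ≤ k - 1 ∧
    P.eval₂ (sub h4 j).subtype (uu (xx j)) =
      ∏ p ∈ pairs k, (xx p.1 - xx p.2) * (1 - xx p.1 - xx p.2) := by
  have hQ : ∀ p : Fin k × Fin k, ∃ Q : Polynomial (sub h4 j), p ∈ pairs k →
      (Q.natDegree ≤ (if p.1 = j ∨ p.2 = j then 1 else 0) ∧
        Q.eval₂ (sub h4 j).subtype (uu (xx j)) = (xx p.1 - xx p.2) * (1 - xx p.1 - xx p.2)) := by
    intro p
    by_cases h1 : p.1 = j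
    · by_cases h2 : p.2 = j
      · refine ⟨0, fun hp => ?_⟩
        exfalso
        rw [pairs, mem_filter, h1, h2] at hp
        exact lt_irrefl _ hp.2
      · refine ⟨Polynomial.X - Polynomial.C ⟨uu (xx p.2), uu_mem h4 h2⟩, fun _ => ⟨?_, ?_⟩⟩
        · rw [if_pos (Or.inl h1)]
          exact Polynomial.natDegree_X_sub_C_le _
        · rw [Polynomial.eval₂_sub, Polynomial.eval₂_X, Polynomial.eval₂_C, Subring.subtype_apply,
            h1]
          unfold uu
          ring
    · by_cases h2 : p.2 = j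
      · refine ⟨Polynomial.C ⟨uu (xx p.1), uu_mem h4 h1⟩ - Polynomial.X, fun _ => ⟨?_, ?_⟩⟩
        · rw [if_pos (Or.inr h2), ← Polynomial.natDegree_neg, neg_sub]
          exact Polynomial.natDegree_X_sub_C_le _
        · rw [Polynomial.eval₂_sub, Polynomial.eval₂_X, Polynomial.eval₂_C, Subring.subtype_apply,
            h2]
          unfold uu
          ring
      · refine ⟨Polynomial.C (⟨uu (xx p.1), uu_mem h4 h1⟩ - ⟨uu (xx p.2), uu_mem h4 h2⟩),
          fun _ => ⟨?_, ?_⟩⟩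
        · rw [Polynomial.natDegree_C]
          exact Nat.zero_le _
        · rw [Polynomial.eval₂_C, Subring.subtype_apply, AddSubgroupClass.coe_sub]
          unfold uu
          ring
  choose Q hQ using hQ
  refine ⟨∏ p ∈ pairs k, Q p, ?_, ?_⟩
  · refine (Polynomial.natDegree_prod_le _ _).trans ?_
    refine (Finset.sum_le_sum fun p hp => (hQ p hp).1).trans ?_
    exact card_pairs j
  · rw [Polynomial.eval₂_finsetProd]
    exact Finset.prod_congr rfl fun p hp => (hQ p hp).2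

/-- a residue of a term with a variable `x_j` which does not occur in the monomial -/
theorem res_term (h1 : S_ODD) (h3 : S_EH3) (h4 : S_XF) (m : ℕ) (hm : 1 ≤ m) (j : Fin k)
    (M : E k) (hM : M ∈ sub h4 j) :
    res (db (xx (k := k)) * M / (∏ i, uu (xx (k := k) i)) ^ (m + k)) = 0 := by
  have hk : 0 < k := j.pos
  obtain ⟨P, hP, hPe⟩ := pairs_poly h4 j
  have hu : uu (xx j) ≠ 0 := by
    have h5 : xx j ≠ 0 := by
      intro h
      have h6 := (h4 k j).1.1
      rw [h] at h6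
      exact h6 rfl
    have h7 : (1 - xx j : E k) ≠ 0 := by
      intro h
      have h6 := ((h4 k j).2.2.2.2.1 j).1.1
      rw [h] at h6
      exact h6 rfl
    exact mul_ne_zero h5 h7
  -- the part free of `x_j`
  have hG1 : ∏ i ∈ univ.erase j, (1 - 2 * xx i) ∈ sub h4 j := by
    apply Subring.prod_mem
    intro i hi
    have hij : i ≠ j := ne_of_mem_erase hi
    have h2 : (2 : E k) ∈ sub h4 j := by
      have h := (h4 k j).2.2.2.2.2.1 2
      rwa [map_ofNat] at h
    exact (sub h4 j).sub_mem (sub h4 j).one_mem ((sub h4 j).mul_mem h2 (xx_mem h4 hij))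
  have hG2 : (∏ i ∈ univ.erase j, uu (xx i)) ^ (m + k) ∈ sub h4 j := by
    apply Subring.pow_mem
    apply Subring.prod_mem
    intro i hi
    exact uu_mem h4 (ne_of_mem_erase hi)
  have hdb : db (xx (k := k)) = (1 - 2 * xx j) * (∏ i ∈ univ.erase j, (1 - 2 * xx i)) *
      ∑ l ∈ range k, ((P.coeff l : sub h4 j) : E k) * uu (xx j) ^ l := by
    unfold db
    rw [← hPe, Polynomial.eval₂_eq_sum_range' _ (lt_of_le_of_lt hP (Nat.sub_lt hk one_pos)),
      Finset.mul_prod_erase univ (fun i => 1 - 2 * xx i) (mem_univ j)]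
    rfl
  have hprod : (∏ i, uu (xx (k := k) i)) = uu (xx j) * ∏ i ∈ univ.erase j, uu (xx i) :=
    (Finset.mul_prod_erase univ (fun i => uu (xx i)) (mem_univ j)).symm
  have hsum : db (xx (k := k)) * M / (∏ i, uu (xx (k := k) i)) ^ (m + k) =
      ∑ l ∈ range k, (((P.coeff l : sub h4 j) : E k) * ((∏ i ∈ univ.erase j, (1 - 2 * xx i)) * M *
        ((∏ i ∈ univ.erase j, uu (xx i)) ^ (m + k))⁻¹)) * (1 - 2 * xx j) /
          uu (xx j) ^ (m + k - l) := by
    rw [hdb, hprod, mul_pow, div_eq_mul_inv, mul_inv, Finset.mul_sum, Finset.sum_mul,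
      Finset.sum_mul]
    refine Finset.sum_congr rfl fun l hl => ?_
    have hl' : l ≤ m + k := by
      have := mem_range.mp hl
      omega
    have h5 : uu (xx j) ^ l * (uu (xx j) ^ (m + k))⁻¹ = (uu (xx j) ^ (m + k - l))⁻¹ := by
      rw [pow_sub₀ _ hu hl', mul_inv, inv_inv, mul_comm]
    rw [div_eq_mul_inv, ← h5]
    ring
  let R : E k →+ ℚ := AddMonoidHom.mk' res ((h3 k).1)
  have hR : ∀ f, R f = res f := fun f => rfl
  rw [hsum, ← hR, map_sum]
  refine Finset.sum_eq_zero fun l hl => ?_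
  rw [hR]
  have hl' := mem_range.mp hl
  refine (h1 k j _ ?_).1 (m + k - l) (by omega)
  exact (sub h4 j).mul_mem (P.coeff l).2
    ((sub h4 j).mul_mem ((sub h4 j).mul_mem hG1 hM) (inv_mem h4 hG2))

/-- **MBD.** -/
theorem mbd (h1 : S_ODD) (_ : S_EH1) (h3 : S_EH3) (h4 : S_XF) :
    Pool.Agent.H174.GM.S_MBD := by
  intro k m hk a _ ha hm
  unfold mres vv
  let R : E k →+ ℚ := AddMonoidHom.mk' res ((h3 k).1)
  have hR : ∀ f, R f = res f := fun f => rfl
  have hsum : db (xx (k := k)) * (∑ σ : Equiv.Perm (Fin k), (Equiv.Perm.sign σ : ℤ) •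
      ∏ i, xx (k := k) (σ i) ^ a i) / (∏ i, uu (xx (k := k) i)) ^ (m + k) =
      ∑ σ : Equiv.Perm (Fin k), (Equiv.Perm.sign σ : ℤ) •
        (db (xx (k := k)) * (∏ i, xx (k := k) (σ i) ^ a i) /
          (∏ i, uu (xx (k := k) i)) ^ (m + k)) := by
    rw [Finset.mul_sum, Finset.sum_div]
    refine Finset.sum_congr rfl fun σ _ => ?_
    rw [zsmul_eq_mul, zsmul_eq_mul]
    ring
  rw [hsum, ← hR, map_sum]
  refine Finset.sum_eq_zero fun σ _ => ?_
  rw [map_zsmul, hR, res_term h1 h3 h4 m hm (σ ⟨0, hk⟩) _ ?_, smul_zero]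
  apply Subring.prod_mem
  intro i _
  by_cases hi : i = ⟨0, hk⟩
  · rw [hi, ha, pow_zero]
    exact (sub h4 (σ ⟨0, hk⟩)).one_mem
  · exact Subring.pow_mem _ (xx_mem h4 (fun h => hi (σ.injective h))) _

end Pool.Agent.H549.GM174
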